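import Pool.Agent.Helper76.CV.Goals

/-! PROJECT CV (MP_eec6f5_gt), packet FIC: the curvature from the normal form. -/

set_option autoImplicit false

open scoped ContDiff
open Filter Topology

namespace Pool.Agent.Helper61.CV.FIC

open Pool.Agent.Helper76.CV

theorem t (hXB : XB) (hWRA : WRA) (hWRB : WRB) (hWRC : WRC) : FIC := by
  intro r D hG hNF c t hc hcX hspeed horth
  obtain ⟨W1, W2, -⟩ := hWRA
  obtain ⟨-, -, -, W3⟩ := hWRB r
  have hpX : c t ∈ X D := hcX.self_of_nhds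
  obtain ⟨n, m, κ, L, hG0, hκ, hH, hcurv⟩ := hNF (c t) hpX
  obtain ⟨-, -, hy1, -, -, -⟩ := hXB r D (c t) hG hpX
  have hT : ContDiffAt ℝ 2 (fun u => (c u).1.1) t := hc.fst.fst
  have hY : ContDiffAt ℝ 2 (fun u => (c u).1.2) t := hc.fst.snd
  have hs : ContDiffAt ℝ 2 (fun u => (c u).2) t := hc.snd
  have hcur := hcurv (fun u => (c u).1.1) (fun u => (c u).1.2) (fun u => (c u).2) t hT hY hs hcX rfl
  obtain ⟨C1, C2⟩ := hWRC r (fun u => (c u).1.1) (fun u => (c u).1.2) t hT hY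
  -- `w > 0`
  obtain ⟨w, hw⟩ : ∃ w, w = wr (c t).1.2 := ⟨_, rfl⟩
  have hw0 : 0 < w := by
    rw [hw]
    unfold wr
    have h1 : |(c t).1.2 0| ≤ 1 := by
      have h2 := EuclideanSpace.norm_eq (c t).1.2
      have h3 := PiLp.norm_apply_le (c t).1.2 0
      rw [Real.norm_eq_abs] at h3
      exact h3.trans hy1
    have h2 := (abs_le.1 h1).1
    linarith
  -- the derivatives of `f ∘ c`
  have d1 : ∀ u, deriv (f ∘ c) u = (4 / 9 : ℝ) • deriv (fun u' => Q ((c u').1.1, (c u').1.2)) u := by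
    intro u
    change deriv ((4 / 9 : ℝ) • (fun u' => Q ((c u').1.1, (c u').1.2))) u = _
    exact deriv_const_smul_field (4 / 9 : ℝ) (fun u' => Q ((c u').1.1, (c u').1.2))
  have d2 : acc (f ∘ c) t = (4 / 9 : ℝ) • acc (fun u' => Q ((c u').1.1, (c u').1.2)) t := by
    unfold acc
    have : deriv (f ∘ c) = fun u => (4 / 9 : ℝ) • deriv (fun u' => Q ((c u').1.1, (c u').1.2)) u :=
      funext d1
    rw [this]
    change deriv ((4 / 9 : ℝ) • (deriv (fun u' => Q ((c u').1.1, (c u').1.2)))) t = _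
    exact deriv_const_smul_field (4 / 9 : ℝ) (deriv (fun u' => Q ((c u').1.1, (c u').1.2)))
  rw [d1 t, C1] at hspeed
  rw [C2] at d2
  rw [← hw] at hspeed d2 hcur
  obtain ⟨φ, hφ⟩ : ∃ φ, φ = 4 / 5 * (c t).1.1 := ⟨_, rfl⟩
  rw [← hφ] at hspeed d2
  obtain ⟨T1, hT1⟩ : ∃ T1, T1 = deriv (fun u => (c u).1.1) t := ⟨_, rfl⟩
  obtain ⟨Y1, hY1⟩ : ∃ Y1, Y1 = deriv (fun u => (c u).1.2) t := ⟨_, rfl⟩
  rw [← hT1, ← hY1] at hspeed d2 hcur
  obtain ⟨k, hk⟩ : ∃ k, k = deriv (deriv fun u => (c u).1.2) t - (4 / 5 * w * T1 ^ 2) • e0 := ⟨_, rfl⟩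
  obtain ⟨l, hl⟩ : ∃ l, l = w * deriv (deriv fun u => (c u).1.1) t + 8 / 5 * T1 * Y1 0 := ⟨_, rfl⟩
  rw [← hk, ← hl] at d2 hcur
  -- tangent vectors
  have hort : ∀ (η : E (r + 3)) (o : ℝ), inner ℝ n η + m * o = 0 → inner ℝ k η + l * o = 0 := by
    intro η o ho
    have hwo : w * (o / w) = o := by field_simp
    have h1 : Tan D (c t) ((o / w, η), L (o / w, η)) := by
      unfold Tan
      rw [hH]
      have e1 : inner ℝ n ((((o / w, η), L (o / w, η)) : V r).1.2) +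
          m * (wr (c t).1.2 * (((o / w, η), L (o / w, η)) : V r).1.1) = 0 := by
        change inner ℝ n η + m * (wr (c t).1.2 * (o / w)) = 0
        rw [← hw, hwo, ho]
      rw [e1]
      change (κ * 0 - Real.sin (c t).2 * (L (o / w, η) - L (o / w, η)),
        L (o / w, η) - L (o / w, η)) = 0
      rw [sub_self, mul_zero, mul_zero, sub_zero]
      rfl
    have h2 := horth _ h1
    rw [d2, W3] at h2
    change inner ℝ ((4 / 9 : ℝ) • Rf φ k l)
      ((4 / 9 : ℝ) • Rf (4 / 5 * (c t).1.1) η (wr (c t).1.2 * (o / w))) = 0 at h2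
    rw [← hφ, ← hw, hwo, inner_smul_left, inner_smul_right, W1] at h2
    have h3 : (4 / 9 : ℝ) * (4 / 9 * (inner ℝ k η + l * o)) = 0 := by simpa using h2
    linarith
  obtain ⟨G, hGd⟩ : ∃ G, G = ‖n‖ ^ 2 + m ^ 2 := ⟨_, rfl⟩
  obtain ⟨s, hsd⟩ : ∃ s, s = inner ℝ n k + m * l := ⟨_, rfl⟩
  have hkey : G * (‖k‖ ^ 2 + l ^ 2) = s ^ 2 := by
    have h1 := hort (G • k - s • n) (G * l - s * m) (by
      rw [inner_sub_right, inner_smul_right, inner_smul_right, real_inner_self_eq_norm_sq]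
      rw [hGd, hsd]
      ring)
    rw [inner_sub_right, inner_smul_right, inner_smul_right, real_inner_self_eq_norm_sq,
      real_inner_comm] at h1
    have h2 : inner ℝ n k = s - m * l := by rw [hsd]; ring
    rw [h2] at h1
    linarith
  rw [← hGd, ← hsd] at hcur
  obtain ⟨A, hA⟩ : ∃ A, A = ‖Y1‖ ^ 2 + (w * T1) ^ 2 := ⟨_, rfl⟩
  rw [← hA] at hcur
  rw [← hGd] at hG0
  have hA1 : (4 / 9 : ℝ) ^ 2 * A = 1 := by
    have h1 : ‖(4 / 9 : ℝ) • Rf φ Y1 (w * T1)‖ ^ 2 = 1 := by rw [hspeed]; norm_num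
    rw [norm_smul, mul_pow, W2, ← hA] at h1
    rw [← h1]
    norm_num
  have hA2 : A = 81 / 16 := by linarith
  have h1 : s ^ 2 ≤ (400 / 9 * √G * A) ^ 2 := by
    have h2 : |s| ≤ |400 / 9 * √G * A| := by
      refine hcur.trans (le_abs_self _)
    exact sq_le_sq.2 h2
  rw [mul_pow, mul_pow, Real.sq_sqrt hG0.le, hA2] at h1
  have h2 : ‖k‖ ^ 2 + l ^ 2 ≤ (400 / 9) ^ 2 * (81 / 16) ^ 2 := by
    have h3 : G * (‖k‖ ^ 2 + l ^ 2) ≤ G * ((400 / 9) ^ 2 * (81 / 16) ^ 2) := by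
      rw [hkey]
      linarith
    exact le_of_mul_le_mul_left h3 hG0
  have h3 : ‖acc (f ∘ c) t‖ ^ 2 ≤ 100 ^ 2 := by
    rw [d2, norm_smul, mul_pow, W2]
    have h4 : ‖(4 / 9 : ℝ)‖ ^ 2 = 16 / 81 := by norm_num
    rw [h4]
    linarith
  exact (abs_le_of_sq_le_sq' h3 (by norm_num)).2

end Pool.Agent.Helper61.CV.FIC
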